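import Pool.Agent.Q204.HF.Cab

/-! Job HF-CB, HF-CA. -/

set_option autoImplicit false

open Topology Filter

namespace Pool.Agent.Q293.HF.CBA

open Pool.Agent.Helper922.HB Pool.Agent.Q293.HF Pool.Agent.Q204.HF

theorem cb1 : S_CB := by
  intro r hr
  have hr0 : r ≠ 0 := by
    rintro rfl
    norm_num at hr
  let C : Set (ℂ × ℂ) := {q | (q.2 ^ 2).re < 2 / 3}
  have h0 : (0 : ℂ × ℂ) ∈ C := by simp [C]
  have hC : StarConvex ℝ (0 : ℂ × ℂ) C := by
    rw [starConvex_zero_iff]
    intro q hq a ha0 ha1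
    simp only [C, Set.mem_ofPred_eq, Prod.smul_snd] at hq ⊢
    have h1 : ((a • q.2) ^ 2).re = a ^ 2 * (q.2 ^ 2).re := by
      rw [Complex.real_smul, mul_pow, ← Complex.ofReal_pow, Complex.re_ofReal_mul]
    rw [h1]
    have h2 : a ^ 2 ≤ 1 := pow_le_one₀ ha0 ha1
    have h3 : 0 ≤ a ^ 2 := by positivity
    rcases le_total 0 (q.2 ^ 2).re with h | h
    · nlinarith
    · nlinarith
  haveI : ContractibleSpace C := hC.contractibleSpace ⟨0, h0⟩
  have hp1 : ∀ q : C, 0 < (1 - (q : ℂ × ℂ).2 ^ 2).re := fun q => by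
    rw [Complex.sub_re, Complex.one_re]
    have := q.2
    simp only [C, Set.mem_ofPred_eq] at this
    linarith
  let e : ↥{e : ℂ × (ℂ × ℂ) |
      e.2.2 ^ 2 - e.2.1 ^ 3 = 1 ∧ (e.2.2 ^ 2).re < 2 / 3 ∧ √3 * |(-r * e.2.1).im| < (-r * e.2.1).re} ≃ₜ C :=
    { toFun := fun w => ⟨(w.1.1, w.1.2.2), w.2.2.1⟩
      invFun := fun q => ⟨(q.1.1, (-r⁻¹ * cb (1 - q.1.2 ^ 2), q.1.2)), by
        have h2 : (-r⁻¹ * cb (1 - q.1.2 ^ 2)) ^ 3 = -(1 - q.1.2 ^ 2) := by
          rw [mul_pow, cb_pow, neg_pow, inv_pow, hr]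
          norm_num
        have h4 : -r * (-r⁻¹ * cb (1 - q.1.2 ^ 2)) = cb (1 - q.1.2 ^ 2) := by
          field_simp
        refine ⟨?_, q.2, ?_⟩
        · rw [h2]
          ring
        · rw [h4]
          exact cb_sector (hp1 q)⟩
      left_inv := by
        rintro ⟨⟨v, x, y⟩, h1, h4, h5⟩
        simp only at h1 h4 h5
        apply Subtype.ext
        have hx : -r⁻¹ * cb (1 - y ^ 2) = x := by
          have : 1 - y ^ 2 = (-r * x) ^ 3 := by
            rw [mul_pow, neg_pow, hr]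
            linear_combination -h1
          rw [this, cb_cube h5]
          field_simp
        simp only [hx]
      right_inv := by
        rintro ⟨⟨v, p⟩, h1⟩
        rfl
      continuous_toFun := by fun_prop
      continuous_invFun := by
        refine Continuous.subtype_mk ?_ _
        have h2 : Continuous fun q : C => cb (1 - (q : ℂ × ℂ).2 ^ 2) := cont_cb (by fun_prop) hp1
        fun_prop }
  exact e.contractibleSpace

theorem ca : S_CA := by
  intro s hs
  have hs2 : s ^ 2 = 1 := by rcases hs with rfl | rfl <;> norm_num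
  let C : Set (ℂ × ℂ) := {q | -(2 / 3) < (q.2 ^ 3).re}
  have h0 : (0 : ℂ × ℂ) ∈ C := by simp [C]
  have hC : StarConvex ℝ (0 : ℂ × ℂ) C := by
    rw [starConvex_zero_iff]
    intro q hq a ha0 ha1
    simp only [C, Set.mem_ofPred_eq, Prod.smul_snd] at hq ⊢
    have h1 : ((a • q.2) ^ 3).re = a ^ 3 * (q.2 ^ 3).re := by
      rw [Complex.real_smul, mul_pow, ← Complex.ofReal_pow, Complex.re_ofReal_mul]
    rw [h1]
    have h2 : a ^ 3 ≤ 1 := pow_le_one₀ ha0 ha1
    have h3 : 0 ≤ a ^ 3 := by positivity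
    rcases le_total 0 (q.2 ^ 3).re with h | h
    · have := mul_nonneg h3 h
      linarith
    · nlinarith
  haveI : ContractibleSpace C := hC.contractibleSpace ⟨0, h0⟩
  have hp1 : ∀ q : C, 1 / 3 < (1 + (q : ℂ × ℂ).2 ^ 3).re := fun q => by
    rw [Complex.add_re, Complex.one_re]
    have := q.2
    simp only [C, Set.mem_ofPred_eq] at this
    linarith
  have hp0 : ∀ q : C, 0 < (1 + (q : ℂ × ℂ).2 ^ 3).re := fun q => by
    have := hp1 q
    linarith
  let e : ↥{e : ℂ × (ℂ × ℂ) |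
      e.2.2 ^ 2 - e.2.1 ^ 3 = 1 ∧ 1 / 3 < (e.2.2 ^ 2).re ∧ 0 < (s * e.2.2).re} ≃ₜ C :=
    { toFun := fun w => ⟨(w.1.1, w.1.2.1), by
        have h1 := w.2.1
        have h2 := w.2.2.1
        have h3 : w.1.2.1 ^ 3 = w.1.2.2 ^ 2 - 1 := by linear_combination -h1
        simp only [C, Set.mem_ofPred_eq, h3, Complex.sub_re, Complex.one_re]
        linarith⟩
      invFun := fun q => ⟨(q.1.1, (q.1.2, s * sq2 (1 + q.1.2 ^ 3))), by
        have h1 : (s * sq2 (1 + q.1.2 ^ 3)) ^ 2 = 1 + q.1.2 ^ 3 := by rw [mul_pow, hs2, one_mul, sq2_pow]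
        have h3 : s * (s * sq2 (1 + q.1.2 ^ 3)) = sq2 (1 + q.1.2 ^ 3) := by
          rw [← mul_assoc, ← sq, hs2, one_mul]
        refine ⟨?_, ?_, ?_⟩
        · rw [h1]
          ring
        · rw [h1]
          exact hp1 q
        · rw [h3]
          exact sq2_re (hp0 q)⟩
      left_inv := by
        rintro ⟨⟨v, x, y⟩, h1, h2, h3⟩
        simp only at h1 h2 h3
        apply Subtype.ext
        have hy : s * sq2 (1 + x ^ 3) = y := by
          have : 1 + x ^ 3 = (s * y) ^ 2 := by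
            rw [mul_pow, hs2, one_mul]
            linear_combination -h1
          rw [this, sq2_sq h3, ← mul_assoc, ← sq, hs2, one_mul]
        simp only [hy]
      right_inv := by
        rintro ⟨⟨v, p⟩, h1⟩
        rfl
      continuous_toFun := by fun_prop
      continuous_invFun := by
        refine Continuous.subtype_mk ?_ _
        have h1 : Continuous fun q : C => sq2 (1 + (q : ℂ × ℂ).2 ^ 3) := cont_sq2 (by fun_prop) hp0
        fun_prop }
  exact e.contractibleSpace

end Pool.Agent.Q293.HF.CBA
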