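import Pool.Agent.Helper922.HB.MV

/-!
# A projective family which is an integral homology fibre bundle but not smooth: definitions

Project HF (helper293), row MP_ed9921_ag. The family is `X → ℂ`, `X = (ℂˣ × Y) / ℤ`, where
`Y = {(t, [u : x : y]) : y² u = x³ + t u³}` and `1 ∈ ℤ` acts by
`(z, t, [u : x : y]) ↦ (z / 2, t, [u : ω x : - y])`, `ω` a primitive third root of unity.
-/

set_option autoImplicit false

open Topology Filter
open scoped LinearAlgebra.Projectivization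

namespace Pool.Agent.Q293.HF

open Pool.Agent.Helper922.HB

/-! ### Relative singular chains -/

section rel

variable {E : Type} [TopologicalSpace E]

/-- the chains with support in `B` -/
noncomputable def SubC (B : Set E) (n : ℕ) : Submodule ℤ (Sing E n →₀ ℤ) :=
  Finsupp.supported ℤ ℤ {σ : Sing E n | Set.range σ ⊆ B}

/-- the relative cycles of `(E, B)` -/
noncomputable def RCyc (B : Set E) : ∀ n : ℕ, Submodule ℤ (Sing E n →₀ ℤ)
  | 0 => ⊤
  | (n + 1) => (SubC B n).comap (bdry E n)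

/-- the relative boundaries of `(E, B)` -/
noncomputable def RBdy (B : Set E) (n : ℕ) : Submodule ℤ (Sing E n →₀ ℤ) := Bdy E n ⊔ SubC B n

/-- `P(g) = 1 - g + g²` on chains -/
noncomputable def PP (g : C(E, E)) (n : ℕ) : (Sing E n →₀ ℤ) →ₗ[ℤ] (Sing E n →₀ ℤ) :=
  LinearMap.id - push g n + (push g n).comp (push g n)

/-- `P(g)^k` is zero on the relative homology `H_n(E, B)`, for all `n` -/
def Kill (k : ℕ) (g : C(E, E)) (B : Set E) : Prop :=
  ∀ n, ∀ z ∈ RCyc B n, (⇑(PP g n))^[k] z ∈ RBdy B n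

/-- the sum of the coefficients of a chain -/
noncomputable def aug (E : Type) [TopologicalSpace E] (n : ℕ) : (Sing E n →₀ ℤ) →ₗ[ℤ] ℤ :=
  Finsupp.lsum ℤ fun _ => LinearMap.id

/-- `P(g)` is zero on the reduced homology of `F` -/
def KillRed (g : C(E, E)) : Prop :=
  ∀ n, ∀ z ∈ Cyc E n, (n = 0 → aug E n z = 0) → PP g n z ∈ Bdy E n

/-- a homeomorphism as a continuous map -/
def toC (g : E ≃ₜ E) : C(E, E) := ⟨g, g.continuous⟩

/-- the sum of the coefficients of the points with label `i` -/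
noncomputable def lsm {L : Type} [DecidableEq L] (l : E → L) (i : L) : (Sing E 0 →₀ ℤ) →ₗ[ℤ] ℤ :=
  Finsupp.lsum ℤ fun σ => if l (σ (Sc.vert 0 0)) = i then LinearMap.id else 0

end rel

/-! ### Coverings with group `ℤ` -/

/-- `p : E → X` is a covering map, whose fibres are the free orbits of the group generated by `g` -/
structure ZCov {E X : Type} [TopologicalSpace E] [TopologicalSpace X] (p : C(E, X)) (g : E ≃ₜ E) :
    Prop where
  cov : IsCoveringMap p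
  surj : Function.Surjective p
  inv : ∀ e, p (g e) = p e
  orb : ∀ e e', p e = p e' → ∃ k : ℤ, (g ^ k) e = e'
  free : ∀ (k : ℤ) (e : E), (g ^ k) e = e → k = 0

/-! ### The spaces -/

/-- `ℂ ∖ {0}` -/
abbrev Cs : Type := {z : ℂ // z ≠ 0}

/-- a primitive third root of unity -/
noncomputable def om : ℂ := Complex.exp (2 * Real.pi * Complex.I / 3)

/-- a primitive sixth root of unity, `ze ^ 2 = om`, `ze ^ 3 = -1` -/
noncomputable def ze : ℂ := Complex.exp (Real.pi * Complex.I / 3)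

/-- the coordinates `(t, w)` near the section at infinity -/
abbrev Vi : Type := {p : ℂ × ℂ // ‖p.1 * p.2 ^ 6‖ < 1 / 2}

/-- half of a nonzero number -/
noncomputable def half (z : Cs) : Cs := ⟨z.1 / 2, div_ne_zero z.2 two_ne_zero⟩

theorem om_ne : om ≠ 0 := Complex.exp_ne_zero _

theorem ze_ne : ze ≠ 0 := Complex.exp_ne_zero _

theorem ze_norm : ‖ze‖ = 1 := by
  have : ze = Complex.exp (((Real.pi / 3 : ℝ) : ℂ) * Complex.I) := by
    unfold ze
    congr 1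
    push_cast
    ring
  rw [this, Complex.norm_exp_ofReal_mul_I]

/-- multiplication by `2` -/
noncomputable def dbl (z : Cs) : Cs := ⟨z.1 * 2, mul_ne_zero z.2 two_ne_zero⟩

/-- `(x, y) ↦ (ω x, - y)` -/
noncomputable def rot : (ℂ × ℂ) ≃ₜ (ℂ × ℂ) where
  toFun e := (om * e.1, -e.2)
  invFun e := (om⁻¹ * e.1, -e.2)
  left_inv e := by simp [om_ne]
  right_inv e := by simp [om_ne]
  continuous_toFun := by fun_prop
  continuous_invFun := by fun_prop

/-- the shift of the universal covering, `v ↦ v - log 2`, `(x, y) ↦ (ω x, - y)` -/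
noncomputable def gU : (ℂ × (ℂ × ℂ)) ≃ₜ (ℂ × (ℂ × ℂ)) :=
  (Homeomorph.addRight (-(Real.log 2 : ℂ))).prodCongr rot

/-- the shift `v ↦ v + 2 π i` -/
noncomputable def hU : (ℂ × (ℂ × ℂ)) ≃ₜ (ℂ × (ℂ × ℂ)) :=
  (Homeomorph.addRight (2 * Real.pi * Complex.I)).prodCongr (Homeomorph.refl _)

/-- the exponential map -/
noncomputable def pU : C(ℂ × (ℂ × ℂ), Cs × (ℂ × ℂ)) :=
  ⟨fun e => (⟨Complex.exp e.1, Complex.exp_ne_zero _⟩, e.2), by fun_prop⟩

/-- `z ↦ z / 2` on `ℂ ∖ {0}` -/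
noncomputable def hlf : Cs ≃ₜ Cs where
  toFun := half
  invFun := dbl
  left_inv z := by ext; simp [half, dbl]
  right_inv z := by ext; simp [half, dbl]
  continuous_toFun := by unfold half; fun_prop
  continuous_invFun := by unfold dbl; fun_prop

/-- the generator on `ℂˣ × ℂ²` -/
noncomputable def gA : (Cs × (ℂ × ℂ)) ≃ₜ (Cs × (ℂ × ℂ)) := hlf.prodCongr rot

/-- `(t, w) ↦ (t, ζ⁻¹ w)` -/
noncomputable def rotI : Vi ≃ₜ Vi where
  toFun e := ⟨(e.1.1, ze⁻¹ * e.1.2), by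
    have := e.2
    simpa [mul_pow, ze_norm] using this⟩
  invFun e := ⟨(e.1.1, ze * e.1.2), by
    have := e.2
    simpa [mul_pow, ze_norm] using this⟩
  left_inv e := by ext <;> simp [ze_ne]
  right_inv e := by ext <;> simp [ze_ne]
  continuous_toFun := by fun_prop
  continuous_invFun := by fun_prop

/-- the generator on `ℂˣ × Vi` -/
noncomputable def gI : (Cs × Vi) ≃ₜ (Cs × Vi) := hlf.prodCongr rotI

/-! ### The embedding -/

/-- the functions `s` on `ℂ ∖ {0}` with `s (z / 2) = c z⁻³ s z` -/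
def VV (c : ℂ) : Submodule ℂ (ℂ → ℂ) where
  carrier := {s | DifferentiableOn ℂ s {0}ᶜ ∧ (∀ z, z ≠ 0 → s (z / 2) = c * z⁻¹ ^ 3 * s z) ∧
    s 0 = 0}
  add_mem' := by
    rintro s s' ⟨h1, h2, h3⟩ ⟨h1', h2', h3'⟩
    refine ⟨h1.add h1', fun z hz => ?_, by simp [h3, h3']⟩
    simp only [Pi.add_apply, h2 z hz, h2' z hz]
    ring
  zero_mem' := ⟨differentiableOn_const 0, fun z _ => by simp, rfl⟩
  smul_mem' := by
    rintro a s ⟨h1, h2, h3⟩
    refine ⟨h1.const_smul a, fun z hz => ?_, by simp [h3]⟩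
    simp only [Pi.smul_apply, smul_eq_mul, h2 z hz]
    ring

/-- the multipliers -/
noncomputable def cc : Fin 3 → ℂ := ![1, om⁻¹, -1]

/-- the action on the homogeneous coordinates `(u, x, y)` -/
noncomputable def aa : Fin 3 → ℂ := ![1, om, -1]

/-- `φ i : ℂ ∖ {0} → ℂ^n`, `i = 0, 1, 2`, embeds the elliptic curve `ℂˣ / 2^ℤ` by the sections of
the line bundle of degree `3` with multiplier `cc i z⁻³` -/
structure Emb {n : ℕ} (φ : Fin 3 → ℂ → Fin n → ℂ) : Prop where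
  holo : ∀ i, DifferentiableOn ℂ (φ i) {0}ᶜ
  mult : ∀ i z, z ≠ 0 → φ i (z / 2) = (cc i * z⁻¹ ^ 3) • φ i z
  ne : ∀ i z, z ≠ 0 → φ i z ≠ 0
  sep : ∀ i z z', z ≠ 0 → z' ≠ 0 → ∀ l : ℂ, φ i z = l • φ i z' → ∃ k : ℤ, z' = 2 ^ k * z
  tan : ∀ i z, z ≠ 0 → ∀ l : ℂ, deriv (φ i) z ≠ l • φ i z

/-- homogeneous coordinates of the point `(z, [u : x : y])`, `X = (u, x, y)` -/
def Ph {n : ℕ} (φ : Fin 3 → ℂ → Fin n → ℂ) (z : ℂ) (X : Fin 3 → ℂ) : Fin 3 × Fin n → ℂ :=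
  fun p => X p.1 * φ p.1 z p.2

theorem Ph_ne {n : ℕ} {φ : Fin 3 → ℂ → Fin n → ℂ} (h : Emb φ) {z : ℂ} (hz : z ≠ 0)
    {X : Fin 3 → ℂ} (hX : X ≠ 0) : Ph φ z X ≠ 0 := by
  intro h0
  apply hX
  funext i
  by_contra hi
  apply h.ne i z hz
  funext j
  have := congrFun h0 (i, j)
  simp only [Ph, Pi.zero_apply, mul_eq_zero] at this
  exact this.resolve_left hi

/-- the equation `y² u = x³ + t u³` -/
def We (t : ℂ) (X : Fin 3 → ℂ) : Prop := X 2 ^ 2 * X 0 = X 1 ^ 3 + t * X 0 ^ 3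

/-- the total space of the family, a subset of `ℂ × ℙ(ℂ^(3n))` -/
def XX {n : ℕ} (φ : Fin 3 → ℂ → Fin n → ℂ) : Set (ℂ × ℙ ℂ (Fin 3 × Fin n → ℂ)) :=
  {p | ∃ (z : ℂ) (X : Fin 3 → ℂ) (h : Ph φ z X ≠ 0), z ≠ 0 ∧ X ≠ 0 ∧ We p.1 X ∧
    p.2 = Projectivization.mk ℂ (Ph φ z X) h}

/-- the point with parameters `z, x, y` (`u = 1`) -/
noncomputable def ptA {n : ℕ} {φ : Fin 3 → ℂ → Fin n → ℂ} (h : Emb φ) (e : Cs × (ℂ × ℂ)) : XX φ :=
  ⟨(e.2.2 ^ 2 - e.2.1 ^ 3, Projectivization.mk ℂ (Ph φ e.1.1 ![1, e.2.1, e.2.2])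
    (Ph_ne h e.1.2 (fun h0 => one_ne_zero (congrFun h0 0)))),
    e.1.1, ![1, e.2.1, e.2.2], _, e.1.2, fun h0 => one_ne_zero (congrFun h0 0),
    by simp [We], rfl⟩

theorem sq_ne (e : Vi) : ((1 + e.1.1 * e.1.2 ^ 6) ^ (1 / 2 : ℂ)) ^ 2 = 1 + e.1.1 * e.1.2 ^ 6 := by
  rw [← Complex.cpow_nat_mul]
  norm_num

/-- homogeneous coordinates near the section at infinity -/
noncomputable def vecI (t w : ℂ) : Fin 3 → ℂ := ![w ^ 3, w, (1 + t * w ^ 6) ^ (1 / 2 : ℂ)]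

theorem vecI_ne (e : Vi) : vecI e.1.1 e.1.2 ≠ 0 := by
  intro h0
  have h1 : ((1 + e.1.1 * e.1.2 ^ 6) ^ (1 / 2 : ℂ)) = 0 := congrFun h0 2
  have h2 := sq_ne e
  rw [h1] at h2
  have h3 : e.1.1 * e.1.2 ^ 6 = -1 := by linear_combination -h2
  have h4 := e.2
  rw [h3] at h4
  norm_num at h4

/-- the point with parameters `z, t, w` -/
noncomputable def ptI {n : ℕ} {φ : Fin 3 → ℂ → Fin n → ℂ} (h : Emb φ) (e : Cs × Vi) : XX φ :=
  ⟨(e.2.1.1, Projectivization.mk ℂ (Ph φ e.1.1 (vecI e.2.1.1 e.2.1.2)) (Ph_ne h e.1.2 (vecI_ne e.2))),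
    e.1.1, vecI e.2.1.1 e.2.1.2, _, e.1.2, vecI_ne e.2, by
      have := sq_ne e.2
      simp only [We, vecI, Matrix.cons_val_zero, Matrix.cons_val_one, Matrix.cons_val]
      rw [this]
      ring, rfl⟩

end Pool.Agent.Q293.HF
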