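import Pool.Agent.Q293.HF.Stm

/-!
# When two parameters give the same point
-/

set_option autoImplicit false

open Topology Filter
open scoped LinearAlgebra.Projectivization

namespace Pool.Agent.Q293.HF.INJ

open Pool.Agent.Q293.HF Pool.Agent.Helper922.HB

theorem cc_mul_aa (i : Fin 3) : cc i * aa i = 1 := by
  fin_cases i
  · show (1 : ℂ) * 1 = 1
    norm_num
  · show om⁻¹ * om = 1
    exact inv_mul_cancel₀ om_ne
  · show (-1 : ℂ) * -1 = 1
    norm_num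

theorem cc_ne (i : Fin 3) : cc i ≠ 0 := fun h => by
  have := cc_mul_aa i
  rw [h, zero_mul] at this
  exact zero_ne_one this

theorem aa_eq (i : Fin 3) : aa i = (cc i)⁻¹ := eq_inv_of_mul_eq_one_right (cc_mul_aa i)

theorem shift {n : ℕ} {φ : Fin 3 → ℂ → Fin n → ℂ} (h : Emb φ) {z : ℂ} (hz : z ≠ 0) (k : ℤ) :
    ∃ m : ℂ, m ≠ 0 ∧ ∀ i, φ i (z / 2 ^ k) = (m * cc i ^ k) • φ i z := by
  induction k using Int.induction_on with
  | zero => exact ⟨1, one_ne_zero, fun i => by simp⟩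
  | succ k ih =>
    obtain ⟨m, hm, he⟩ := ih
    have h2 : (2 : ℂ) ^ (k : ℤ) ≠ 0 := zpow_ne_zero _ two_ne_zero
    have hz2 : z / 2 ^ (k : ℤ) ≠ 0 := div_ne_zero hz h2
    refine ⟨(z / 2 ^ (k : ℤ))⁻¹ ^ 3 * m, mul_ne_zero (pow_ne_zero _ (inv_ne_zero hz2)) hm, fun i => ?_⟩
    have e1 : z / 2 ^ ((k : ℤ) + 1) = z / 2 ^ (k : ℤ) / 2 := by
      rw [zpow_add₀ two_ne_zero, zpow_one]
      field_simp
    rw [e1, h.mult i _ hz2, he i, smul_smul, zpow_add₀ (cc_ne i), zpow_one]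
    congr 1
    ring
  | pred k ih =>
    obtain ⟨m, hm, he⟩ := ih
    have h2 : (2 : ℂ) ^ (-(k : ℤ) - 1) ≠ 0 := zpow_ne_zero _ two_ne_zero
    have hz2 : z / 2 ^ (-(k : ℤ) - 1) ≠ 0 := div_ne_zero hz h2
    have h2' : (2 : ℂ) ^ (-(k : ℤ)) ≠ 0 := zpow_ne_zero _ two_ne_zero
    have e1 : z / 2 ^ (-(k : ℤ)) = z / 2 ^ (-(k : ℤ) - 1) / 2 := by
      rw [zpow_sub₀ two_ne_zero, zpow_one]
      field_simp
    set w := z / 2 ^ (-(k : ℤ) - 1) with hw
    refine ⟨w ^ 3 * m, mul_ne_zero (pow_ne_zero _ hz2) hm, fun i => ?_⟩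
    have h3 := h.mult i w hz2
    rw [← e1, he i] at h3
    have h4 : cc i * w⁻¹ ^ 3 ≠ 0 := mul_ne_zero (cc_ne i) (pow_ne_zero _ (inv_ne_zero hz2))
    have h5 : φ i w = (cc i * w⁻¹ ^ 3)⁻¹ • ((m * cc i ^ (-(k : ℤ))) • φ i z) := by
      rw [h3, smul_smul, inv_mul_cancel₀ h4, one_smul]
    rw [h5, smul_smul]
    congr 1
    rw [zpow_sub₀ (cc_ne i), zpow_one]
    have := cc_ne i
    field_simp

theorem inj : S_INJ := by
  intro n φ h z z' X X' hz hz' hX hX'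
  constructor
  · rintro ⟨l, hl, he⟩
    obtain ⟨i₀, hi₀⟩ := Function.ne_iff.mp hX'
    simp only [Pi.zero_apply] at hi₀
    have key : ∀ i j, X' i * φ i z' j = l * (X i * φ i z j) := fun i j => congrFun he (i, j)
    have h1 : φ i₀ z' = (l * X i₀ / X' i₀) • φ i₀ z := by
      funext j
      have := key i₀ j
      simp only [Pi.smul_apply, smul_eq_mul]
      field_simp
      linear_combination this
    obtain ⟨k, hk⟩ := h.sep i₀ z' z hz' hz _ h1
    have h2 : (2 : ℂ) ^ k ≠ 0 := zpow_ne_zero _ two_ne_zero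
    have hzk : z' = z / 2 ^ k := by
      rw [hk]
      field_simp
    obtain ⟨m, hm, hs⟩ := shift h hz k
    refine ⟨k, l / m, div_ne_zero hl hm, hzk, fun i => ?_⟩
    obtain ⟨j, hj⟩ := Function.ne_iff.mp (h.ne i z hz)
    simp only [Pi.zero_apply] at hj
    have h3 := key i j
    rw [hzk, hs i] at h3
    simp only [Pi.smul_apply, smul_eq_mul] at h3
    have h4 : X' i * (m * cc i ^ k) = l * X i := by
      apply mul_right_cancel₀ hj
      linear_combination h3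
    have h5 : cc i ^ k ≠ 0 := zpow_ne_zero _ (cc_ne i)
    rw [aa_eq, inv_zpow]
    field_simp
    linear_combination h4
  · rintro ⟨k, l, hl, hzk, hx⟩
    obtain ⟨m, hm, hs⟩ := shift h hz k
    refine ⟨l * m, mul_ne_zero hl hm, ?_⟩
    funext p
    have h5 : cc p.1 ^ k ≠ 0 := zpow_ne_zero _ (cc_ne p.1)
    simp only [Ph, Pi.smul_apply, smul_eq_mul]
    rw [hx p.1, hzk, hs p.1, aa_eq, inv_zpow]
    simp only [Pi.smul_apply, smul_eq_mul]
    field_simp

end Pool.Agent.Q293.HF.INJ
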