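import Pool.Agent.Q94.HF.OI

/-!
# The parametrisation of the affine part is continuous and open
-/

set_option autoImplicit false

open Topology Filter
open scoped LinearAlgebra.Projectivization

namespace Pool.Agent.Q293.HF.OA

open Pool.Agent.Q293.HF Pool.Agent.Helper922.HB Pool.Agent.Q94.HF.OI

theorem vecA_ne (x y : ℂ) : (![1, x, y] : Fin 3 → ℂ) ≠ 0 := fun h0 => one_ne_zero (congrFun h0 0)

/-- parameters of a point of the affine part -/
noncomputable def Ja (e : Cs × (ℂ × ℂ)) : EE :=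
  ⟨(e.1.1, e.2.2 ^ 2 - e.2.1 ^ 3, ![1, e.2.1, e.2.2]), e.1.2, vecA_ne _ _, by simp [We]⟩

theorem ptA_eq {n : ℕ} {φ : Fin 3 → ℂ → Fin n → ℂ} (h : Emb φ) (e : Cs × (ℂ × ℂ)) :
    ptA h e = Th h (Ja e) := rfl

theorem cont_Ja : Continuous Ja := by
  unfold Ja
  refine Continuous.subtype_mk ?_ _
  refine Continuous.prodMk (by fun_prop) (Continuous.prodMk (by fun_prop) ?_)
  rw [continuous_pi_iff]
  intro i
  fin_cases i
  · show Continuous fun _ : Cs × (ℂ × ℂ) => (1 : ℂ)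
    fun_prop
  · show Continuous fun e : Cs × (ℂ × ℂ) => e.2.1
    fun_prop
  · show Continuous fun e : Cs × (ℂ × ℂ) => e.2.2
    fun_prop

/-- the local inverse -/
noncomputable def Ra (e : EE) : Cs × (ℂ × ℂ) :=
  (⟨e.1.1, e.2.1⟩, (e.1.2.2 1 / e.1.2.2 0, e.1.2.2 2 / e.1.2.2 0))

theorem th_eqA {n : ℕ} {φ : Fin 3 → ℂ → Fin n → ℂ} (h : Emb φ) (e : EE) (h0 : e.1.2.2 0 ≠ 0) :
    Th h (Ja (Ra e)) = Th h e := by
  have hw := e.2.2.2
  unfold We at hw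
  apply Subtype.ext
  apply Prod.ext
  · show (e.1.2.2 2 / e.1.2.2 0) ^ 2 - (e.1.2.2 1 / e.1.2.2 0) ^ 3 = e.1.2.1
    field_simp
    linear_combination hw
  · show Projectivization.mk ℂ (Ph φ e.1.1 ![1, e.1.2.2 1 / e.1.2.2 0, e.1.2.2 2 / e.1.2.2 0])
        (Ph_ne h e.2.1 (vecA_ne _ _)) = Projectivization.mk ℂ (Ph φ e.1.1 e.1.2.2) _
    rw [Projectivization.mk_eq_mk_iff]
    refine ⟨Units.mk0 _ (inv_ne_zero h0), ?_⟩
    show (e.1.2.2 0)⁻¹ • Ph φ e.1.1 e.1.2.2 = _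
    rw [← Ph_smul]
    congr 1
    funext i
    fin_cases i
    · show (e.1.2.2 0)⁻¹ * e.1.2.2 0 = 1
      exact inv_mul_cancel₀ h0
    · show (e.1.2.2 0)⁻¹ * e.1.2.2 1 = e.1.2.2 1 / e.1.2.2 0
      rw [div_eq_inv_mul]
    · show (e.1.2.2 0)⁻¹ * e.1.2.2 2 = e.1.2.2 2 / e.1.2.2 0
      rw [div_eq_inv_mul]

theorem oa (h : S_QO) : S_OA := by
  intro n φ hE
  obtain ⟨hc, ho⟩ := h n φ hE (Th hE) (fun e => ⟨rfl, Ph_ne hE e.2.1 e.2.2.1, rfl⟩)
  refine ⟨hc.comp cont_Ja, IsOpenMap.of_nhds_le fun e₀ => ?_⟩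
  have hX : ∀ i, Continuous fun e : EE => e.1.2.2 i := fun i => by fun_prop
  have hx0 : (Ja e₀).1.2.2 0 ≠ 0 := one_ne_zero
  have ev1 : ∀ᶠ e in 𝓝 (Ja e₀), e.1.2.2 0 ≠ 0 := (hX 0).continuousAt.eventually_ne hx0
  have hRJ : Ra (Ja e₀) = e₀ := by
    apply Prod.ext
    · rfl
    · show (e₀.2.1 / 1, e₀.2.2 / 1) = e₀.2
      rw [div_one, div_one]
  have hR : Tendsto Ra (𝓝 (Ja e₀)) (𝓝 e₀) := by
    have h1 : ContinuousAt Ra (Ja e₀) := by
      unfold Ra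
      refine ContinuousAt.prodMk ?_ (ContinuousAt.prodMk ?_ ?_)
      · have : Continuous fun e : EE => (⟨e.1.1, e.2.1⟩ : Cs) :=
          Continuous.subtype_mk (by fun_prop) _
        exact this.continuousAt
      · exact (hX 1).continuousAt.div (hX 0).continuousAt hx0
      · exact (hX 2).continuousAt.div (hX 0).continuousAt hx0
    have h2 := h1.tendsto
    rw [hRJ] at h2
    exact h2
  calc 𝓝 (ptA hE e₀) = 𝓝 (Th hE (Ja e₀)) := rfl
    _ ≤ map (Th hE) (𝓝 (Ja e₀)) := ho.nhds_le (Ja e₀)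
    _ = map (fun e => ptA hE (Ra e)) (𝓝 (Ja e₀)) := by
        apply Filter.map_congr
        filter_upwards [ev1] with e he1
        exact (th_eqA hE e he1).symm
    _ = map (ptA hE) (map Ra (𝓝 (Ja e₀))) := by
        rw [Filter.map_map]
        rfl
    _ ≤ map (ptA hE) (𝓝 e₀) := Filter.map_mono hR

end Pool.Agent.Q293.HF.OA
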