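import Pool.Agent.Q293.HF.INJ

/-!
# The embedding of the elliptic curve by three line bundles
-/

set_option autoImplicit false

open Topology Filter
open scoped LinearAlgebra.Projectivization

namespace Pool.Agent.Q293.HF.PHI

open Pool.Agent.Q293.HF Pool.Agent.Helper922.HB

theorem gens (hF : S_FIN) : ∃ (n : ℕ) (s : ∀ i : Fin 3, Fin n → VV (cc i)),
    ∀ i, Submodule.span ℂ (Set.range (s i)) = ⊤ := by
  have h1 : ∀ i : Fin 3, ∃ (n : ℕ) (s : Fin n → VV (cc i)), Submodule.span ℂ (Set.range s) = ⊤ := by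
    intro i
    have := hF (cc i)
    exact Module.Finite.exists_fin
  choose N s hs using h1
  refine ⟨∑ i, N i, fun i j => if h : j.1 < N i then s i ⟨j.1, h⟩ else 0, fun i => ?_⟩
  rw [eq_top_iff, ← hs i]
  apply Submodule.span_mono
  rintro _ ⟨j, rfl⟩
  have hj : j.1 < ∑ i, N i := lt_of_lt_of_le j.2 (Finset.single_le_sum (fun _ _ => Nat.zero_le _) (Finset.mem_univ i))
  refine ⟨⟨j.1, hj⟩, ?_⟩
  simp only [j.2, dif_pos]

theorem phi (hS : S_SEP) (hF : S_FIN) : S_PHI := by
  obtain ⟨n, s, hs⟩ := gens hF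
  have hrep : ∀ i, ∀ f ∈ VV (cc i), ∃ a : Fin n → ℂ, f = fun z => ∑ j, a j * (s i j : ℂ → ℂ) z := by
    intro i f hf
    have h1 : (⟨f, hf⟩ : VV (cc i)) ∈ Submodule.span ℂ (Set.range (s i)) := by
      rw [hs i]
      exact Submodule.mem_top
    rw [Submodule.mem_span_range_iff_exists_fun] at h1
    obtain ⟨a, ha⟩ := h1
    refine ⟨a, ?_⟩
    have h2 := congrArg (fun x : VV (cc i) => (x : ℂ → ℂ)) ha
    simp only at h2
    rw [← h2]
    funext z
    simp [Finset.sum_apply]
  have hd : ∀ i j z, z ≠ 0 → DifferentiableAt ℂ (s i j : ℂ → ℂ) z := by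
    intro i j z hz
    exact ((s i j).2.1 z hz).differentiableAt (isOpen_compl_singleton.mem_nhds hz)
  refine ⟨n, fun i z j => (s i j : ℂ → ℂ) z, ?_, ?_, ?_, ?_, ?_⟩
  · intro i
    rw [differentiableOn_pi]
    intro j
    exact (s i j).2.1
  · intro i z hz
    funext j
    exact (s i j).2.2.1 z hz
  · intro i z hz h0
    obtain ⟨f, hf, hne⟩ := (hS (cc i) (INJ.cc_ne i)).1 z hz
    obtain ⟨a, ha⟩ := hrep i f hf
    apply hne
    rw [ha]
    apply Finset.sum_eq_zero
    intro j _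
    have := congrFun h0 j
    simp only [Pi.zero_apply] at this
    rw [this, mul_zero]
  · intro i z z' hz hz' l hl
    by_contra hk
    obtain ⟨f, hf, hne, h0⟩ := (hS (cc i) (INJ.cc_ne i)).2.1 z z' hz hz' hk
    obtain ⟨a, ha⟩ := hrep i f hf
    apply hne
    rw [ha] at h0 ⊢
    simp only at h0 ⊢
    have : ∀ j, (s i j : ℂ → ℂ) z = l * (s i j : ℂ → ℂ) z' := fun j => congrFun hl j
    calc ∑ j, a j * (s i j : ℂ → ℂ) z = l * ∑ j, a j * (s i j : ℂ → ℂ) z' := by
          rw [Finset.mul_sum]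
          refine Finset.sum_congr rfl fun j _ => ?_
          rw [this j]
          ring
      _ = 0 := by rw [h0, mul_zero]
  · intro i z hz l hl
    obtain ⟨f, hf, h0, hne⟩ := (hS (cc i) (INJ.cc_ne i)).2.2 z hz
    obtain ⟨a, ha⟩ := hrep i f hf
    apply hne
    rw [ha] at h0 ⊢
    simp only at h0 ⊢
    have hpi : ∀ j, deriv (fun z => (fun i z j => (s i j : ℂ → ℂ) z) i z) z j = deriv (s i j : ℂ → ℂ) z := by
      intro j
      have := deriv_pi (φ := fun z j => (s i j : ℂ → ℂ) z) (fun j => hd i j z hz)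
      exact congrFun this j
    have h1 : ∀ j, deriv (s i j : ℂ → ℂ) z = l * (s i j : ℂ → ℂ) z := by
      intro j
      rw [← hpi j]
      exact congrFun hl j
    have h2 : deriv (fun z => ∑ j, a j * (s i j : ℂ → ℂ) z) z = ∑ j, a j * deriv (s i j : ℂ → ℂ) z := by
      have h3 : HasDerivAt (fun z => ∑ j, a j * (s i j : ℂ → ℂ) z) (∑ j, a j * deriv (s i j : ℂ → ℂ) z) z :=
        HasDerivAt.fun_sum fun j _ => ((hd i j z hz).hasDerivAt.const_mul (a j))
      exact h3.deriv
    rw [h2]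
    calc ∑ j, a j * deriv (s i j : ℂ → ℂ) z = l * ∑ j, a j * (s i j : ℂ → ℂ) z := by
          rw [Finset.mul_sum]
          refine Finset.sum_congr rfl fun j _ => ?_
          rw [h1 j]
          ring
      _ = 0 := by rw [h0, mul_zero]

end Pool.Agent.Q293.HF.PHI
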