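import Pool.Agent.Q110.HF.CONN
import Pool.Agent.Q110.HF.HT
import Pool.Agent.Q129.HF.LIFT
import Pool.Agent.Q13.HF.JOIN
import Pool.Agent.Q160.HF.FIN
import Pool.Agent.Q162.HF.KU
import Pool.Agent.Q162.HF.ZC
import Pool.Agent.Q164.HF.COV
import Pool.Agent.Q164.HF.CTR
import Pool.Agent.Q164.HF.LAB
import Pool.Agent.Q176.HF.QO
import Pool.Agent.Q176.HF.THETA
import Pool.Agent.Q192.HF.KIP
import Pool.Agent.Q204.HF.Cab
import Pool.Agent.Q204.HF.K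
import Pool.Agent.Q210.HF.FA
import Pool.Agent.Q210.HF.FI
import Pool.Agent.Q217.HF.PT2
import Pool.Agent.Q222.HF.REL
import Pool.Agent.Q224.HF.FINAL
import Pool.Agent.Q224.HF.IND
import Pool.Agent.Q224.HF.LPA
import Pool.Agent.Q224.HF.LPI
import Pool.Agent.Q230.HF.FB
import Pool.Agent.Q238.HF.ZP
import Pool.Agent.Q252.HF.CHAIN
import Pool.Agent.Q252.HF.COVH
import Pool.Agent.Q252.HF.RG
import Pool.Agent.Q259.HF.SEP
import Pool.Agent.Q293.HF.CBA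
import Pool.Agent.Q293.HF.INJ
import Pool.Agent.Q293.HF.OA
import Pool.Agent.Q293.HF.PHI
import Pool.Agent.Q299.HF.F1
import Pool.Agent.Q299.HF.MVU
import Pool.Agent.Q299.HF.PUKE
import Pool.Agent.Q94.HF.OI

/-!
# Project HF: assembly
-/

set_option autoImplicit false

open scoped LinearAlgebra.Projectivization

namespace Pool.Agent.Q293.HF

open Pool.Agent.Helper922.HB

theorem final_all : S_FINAL := by
  have hREL : S_REL := Q222.HF.REL.rel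
  have hLIFT : S_LIFT := Q129.HF.LIFT.lift
  have hCHAIN : S_CHAIN := Q252.HF.CHAIN.chain hLIFT
  have hCOV : S_COV := Q164.HF.COV.cov hCHAIN
  have hCOVH : S_COVH := Q252.HF.COVH.covh hCHAIN
  have hCTR : S_CTR := Q164.HF.CTR.ctr
  have hLAB : S_LAB := Q164.HF.LAB.lab
  have hJOIN : S_JOIN := Q13.HF.JOIN.join hLAB
  have hF1 : S_F1 := Q299.HF.F1.f1 hJOIN CBA.ca CBA.cb1 Q204.HF.cab
  have hKU : S_KU := Q162.HF.KU.ku hF1 hCTR
  have hZC : S_ZC := Q162.HF.ZC.zc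
  have hPU : S_PU := Q299.HF.PUKE.pu hZC
  have hKE : S_KE := Q299.HF.PUKE.ke hKU hPU hCOVH
  have hKZ : S_KZ := Q204.HF.kz
  have hKI : S_KI := Q204.HF.ki
  have hKIP : S_KIP := Q192.HF.KIP.kip
  have hMVU : S_MVU := Q299.HF.MVU.mvu
  have hFB : S_FB := Q230.HF.FB.fb
  have hTHETA : S_THETA := Q176.HF.THETA.theta
  have hFIN : S_FIN := Q160.HF.FIN.fin
  have hSEP : S_SEP := Q259.HF.SEP.sep hTHETA
  have hPHI : S_PHI := PHI.phi hSEP hFIN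
  have hPT2 : S_PT2 := Q217.HF.pt2
  have hPCO : S_PCO := Q217.HF.pco
  have hINJ : S_INJ := INJ.inj
  have hQO : S_QO := Q176.HF.QO.qo hPT2 hPCO hINJ
  have hCL : S_CL := Q176.HF.QO.cl hPT2 hPCO hINJ
  have hOA : S_OA := OA.oa hQO
  have hOI : S_OI := Q94.HF.OI.oi hQO hPCO
  have hFA : S_FA := Q210.HF.FA.fa hINJ
  have hFI : S_FI := Q210.HF.FI.fi hINJ
  have hRG : S_RG := Q252.HF.RG.rg
  have hZA : S_ZA := Q204.HF.za hZC hOA hFA
  have hZI : S_ZI := Q204.HF.zi hZC hOI hFI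
  have hZP : S_ZP := Q238.HF.zp hZC hOI hFI hRG
  have hHT : S_HT := Q110.HF.HT.ht hREL hCOV hKE hKZ hKI hKIP hMVU hZA hZI hZP hOA hOI hRG
  have hCONN : S_CONN := Q110.HF.CONN.conn hHT hOA hOI hRG
  have hLPA : S_LPA := Q224.HF.LPA.lpa hOA hINJ
  have hLPI : S_LPI := Q224.HF.LPI.lpi hOI hFI
  have hIND : S_IND := Q224.HF.IND.ind
  exact Q224.HF.FINAL.final hPHI hCL hRG hLPA hLPI hIND hHT hFB hCONN

/-- the family -/
theorem fin_all : ∃ (n : ℕ) (X : Set (ℂ × ℙ ℂ (Fin 3 × Fin n → ℂ))), IsClosedSubmanifold 3 X ∧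
    (∀ t : ℂ, IsPathConnected {p : X | p.1.1 = t}) ∧
    (∀ p ∈ X, p.1 ≠ 0 → ProjSubmersiveAt 3 X p) ∧
    IsZHomologyFiberBundle (fun p : X => p.1.1) ∧
    ∃ p ∈ X, p.1 = 0 ∧ ∀ (P : LocalParam 3 X) (v : Fin 3 → ℂ) (hv : v ∈ P.V), P.pt v hv = p →
      ∀ k : Fin 3 → ℂ, fderiv ℂ P.a v k = 0 := final_all

end Pool.Agent.Q293.HF
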