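import Pool.Agent.Q293.HF.Defs

/-!
# Project HF (helper293), row MP_ed9921_ag: statements of the parts

Here `g - 1` means `push g n w - w`; relative chains as in `Defs.lean`; Mayer-Vietoris and
homotopy invariance are proved in `Pool/Agent/Helper922/HB/HE.lean`, `MV.lean`.
-/

set_option autoImplicit false

open Topology Filter
open scoped LinearAlgebra.Projectivization

namespace Pool.Agent.Q293.HF

open Pool.Agent.Helper922.HB

/-! ### Topology -/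

/-- REL: the long exact sequence of the pair. `→`: for `n + 1`, `∂ z = push (sub B) y` (`mvx_lift`), `y` is a cycle
(`mvx_inj_sub`), a boundary in `E`, so `y = ∂ w` in `B`, and `z - push (sub B) w` is a cycle in `E`, hence
`push (sub B) z' + boundary`. `←`: similar (a cycle of `B` which is `∂ w` in `E`: `w` is a relative cycle). -/
def S_REL : Prop := ∀ (E : Type) [TopologicalSpace E] (B : Set E) (g : C(E, E)), HE (sub B) ↔ Kill 0 g B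

/-- LIFT: lifting of singular simplices (`IsCoveringMap.existsUnique_continuousMap_lifts`, the simplex is contractible and
locally path connected; uniqueness: connected domain). -/
def S_LIFT : Prop := ∀ (E X : Type) [TopologicalSpace E] [TopologicalSpace X] (p : C(E, X)) (g : E ≃ₜ E),
  ZCov p g → ∀ n : ℕ, (∀ σ : Sing X n, ∃ τ : Sing E n, p.comp τ = σ) ∧
    ∀ τ τ' : Sing E n, p.comp τ = p.comp τ' → ∃ k : ℤ, (toC (g ^ k)).comp τ = τ'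

/-- CHAIN: `0 → C(E) → C(E) → C(X) → 0` (maps `g - 1` and `push p`) modulo the chains in `A`. Split `y = y₁ + y₂` in the
simplices with range in `p⁻¹ A` and the others; `push p y₂ = 0`. The simplices of `E` over a simplex of `X` are a free orbit
of `ℤ` (`S_LIFT`): a finite combination with coefficient sum `0` in every orbit is `g w - w`, and `g y = y` implies `y = 0`. -/
def S_CHAIN : Prop := ∀ (E X : Type) [TopologicalSpace E] [TopologicalSpace X] (p : C(E, X)) (g : E ≃ₜ E),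
  ZCov p g → ∀ (A : Set X) (n : ℕ),
  (∀ z : Sing X n →₀ ℤ, ∃ y : Sing E n →₀ ℤ, push p n y = z) ∧
  (∀ y : Sing E n →₀ ℤ, push p n y ∈ SubC A n →
    ∃ w b : Sing E n →₀ ℤ, b ∈ SubC (p ⁻¹' A) n ∧ y = push (toC g) n w - w + b) ∧
  (∀ y : Sing E n →₀ ℤ, push (toC g) n y - y ∈ SubC (p ⁻¹' A) n → y ∈ SubC (p ⁻¹' A) n)

/-- COV. Write `B = p⁻¹ A`, `P = 1 - g + g²`, `(g - 1) Q = 1 - P^k` with a polynomial `Q` in `g` (`1 - P = -g (g - 1)` divides).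
`z` a relative cycle of degree `n + 1`, `z = push p y` (`S_CHAIN`), `∂ y = (g - 1) w + b`, `w` is a relative cycle (third part
of `S_CHAIN` for `∂ w`), `P^k w = ∂ v + b₁`. So `w = Q (g - 1) w + P^k w = Q (∂ y - b) + ∂ v + b₁ = ∂ v' + b'` with
`v' = Q y + v`, and `y - (g - 1) v'` is a relative cycle, `P^k (y - (g - 1) v') = ∂ v'' + b''`; apply `push p`:
`push p (P y) = push p y` and `push p ((g - 1) v') = 0`. Degree `0`: `P^k y = ∂ v + b` directly. -/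
def S_COV : Prop := ∀ (E X : Type) [TopologicalSpace E] [TopologicalSpace X] (p : C(E, X)) (g : E ≃ₜ E),
  ZCov p g → ∀ (A : Set X) (k : ℕ), Kill k (toC g) (p ⁻¹' A) → Kill 0 (ContinuousMap.id X) A

/-- COVH. As `S_COV`, for the other automorphism: `z = push p y`, `∂ y = (h - 1) w + b`, `w` a relative cycle (or degree 0),
`P^k w = ∂ v + b₁`; `P^k y - (h - 1) v` is a relative cycle (`h` commutes with `g`), so `P^k (P^k y - (h - 1) v) = ∂ v'' + b''`;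
apply `push p`. (`P` in `g` upstairs and in `g'` downstairs.) -/
def S_COVH : Prop := ∀ (E X : Type) [TopologicalSpace E] [TopologicalSpace X] (p : C(E, X)) (h : E ≃ₜ E),
  ZCov p h → ∀ (A : Set X) (g : E ≃ₜ E) (g' : X ≃ₜ X) (k : ℕ), (∀ e, p (g e) = g' (p e)) →
  (∀ e, g (h e) = h (g e)) → (∀ x, g' x ∈ A ↔ x ∈ A) → Kill k (toC g) (p ⁻¹' A) → Kill (2 * k) (toC g') A

/-- CTR: pairs `(E, B)` with `E` contractible. Degree 0: every point is homologous to a point of `B`. Degree `n + 1`: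
`∂ z = push (sub B) y`, `y` a cycle (of augmentation zero if `n = 0`), `P y = ∂ w` in `B`, and `P z - push (sub B) w` is a cycle
in `E` of positive degree, hence a boundary (homotopy invariance: the identity is homotopic to a constant map; a cycle of
positive degree on a point is a boundary). -/
def S_CTR : Prop := ∀ (E : Type) [TopologicalSpace E] [ContractibleSpace E] (g : E ≃ₜ E) (B : Set E),
  B.Nonempty → ∀ gB : C(B, B), (∀ x : B, (gB x : E) = g x) → KillRed gB → Kill 1 (toC g) B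

/-- LAB: a space with finitely many contractible open pieces. (A simplex lies in one piece, since it is connected.) -/
def S_LAB : Prop := ∀ (W : Type) [TopologicalSpace W] (L : Type) [Fintype L] [DecidableEq L] (l : W → L),
  (∀ i, IsOpen {x | l x = i}) → (∀ i, ContractibleSpace ↥{x | l x = i}) →
  (∀ n, ∀ z ∈ Cyc W (n + 1), z ∈ Bdy W (n + 1)) ∧
  ∀ z : Sing W 0 →₀ ℤ, z ∈ Bdy W 0 ↔ ∀ i, lsm l i z = 0

/-- JOIN: Mayer-Vietoris for `F = A ∪ B` (`mv_zero`, `mv_split`), `A` with 2, `B` with 3, `A ∩ B` with 6 contractible pieces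
(`S_LAB`). Degree `≥ 2`: cycles are boundaries. Degree 0: all points are homologous since all the intersections are nonempty.
Degree 1: `c ~ u + v`, `∂ u = d = -∂ v`, `d` a 0-chain in `A ∩ B` with sum `d i j` on the piece `(i, j)`; `∑_j d i j = 0`,
`∑_i d i j = 0` (boundaries in `A`, `B`), so `d 0 j = - d 1 j = e j`, `∑ e j = 0`, and `(g d) (i+1) (j+1) = d i j` gives
`(P d) i j = ± (e (j-1) + e j + e (j+1)) = 0`. So `P d = ∂ w` in `A ∩ B`, `P u - w` and `P v + w` are cycles of degree 1 in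
`A`, `B`, hence boundaries. -/
def S_JOIN : Prop := ∀ (F : Type) [TopologicalSpace F] (g : C(F, F)) (A B : Set F) (a : F → ZMod 2) (b : F → ZMod 3),
  IsOpen A → IsOpen B → (∀ x, x ∈ A ∨ x ∈ B) → (∀ x ∈ A, g x ∈ A ∧ a (g x) = a x + 1) →
  (∀ x ∈ B, g x ∈ B ∧ b (g x) = b x + 1) → (∀ i, IsOpen {x | x ∈ A ∧ a x = i}) →
  (∀ j, IsOpen {x | x ∈ B ∧ b x = j}) → (∀ i, ContractibleSpace ↥{x | x ∈ A ∧ a x = i}) →
  (∀ j, ContractibleSpace ↥{x | x ∈ B ∧ b x = j}) →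
  (∀ i j, ContractibleSpace ↥{x | (x ∈ A ∧ a x = i) ∧ (x ∈ B ∧ b x = j)}) → KillRed g

/-- CA: homeomorphic to `{(v, x) : - 2/3 < Re x³}`, star-shaped around `0`, by `y = s √(1 + x³)`. -/
def S_CA : Prop := ∀ s : ℂ, s = 1 ∨ s = -1 → ContractibleSpace ↥{e : ℂ × (ℂ × ℂ) |
  e.2.2 ^ 2 - e.2.1 ^ 3 = 1 ∧ 1 / 3 < (e.2.2 ^ 2).re ∧ 0 < (s * e.2.2).re}

/-- CB: homeomorphic to `{(v, y) : Re y² < 2/3}`, star-shaped around `0`, by `x = - r⁻¹ (1 - y²)^(1/3)`. -/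
def S_CB : Prop := ∀ r : ℂ, r ^ 3 = 1 → ContractibleSpace ↥{e : ℂ × (ℂ × ℂ) |
  e.2.2 ^ 2 - e.2.1 ^ 3 = 1 ∧ (e.2.2 ^ 2).re < 2 / 3 ∧ √3 * |(-r * e.2.1).im| < (-r * e.2.1).re}

/-- CAB: homeomorphic to the convex set `{(v, p) : 1/3 < Re p < 2/3}` by `y = s √p`, `x = - r⁻¹ (1 - p)^(1/3)`. -/
def S_CAB : Prop := ∀ s r : ℂ, s = 1 ∨ s = -1 → r ^ 3 = 1 → ContractibleSpace ↥{e : ℂ × (ℂ × ℂ) |
  (e.2.2 ^ 2 - e.2.1 ^ 3 = 1 ∧ 1 / 3 < (e.2.2 ^ 2).re ∧ 0 < (s * e.2.2).re) ∧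
  (e.2.2 ^ 2 - e.2.1 ^ 3 = 1 ∧ (e.2.2 ^ 2).re < 2 / 3 ∧ √3 * |(-r * e.2.1).im| < (-r * e.2.1).re)}

/-- F1: `S_JOIN` with `A = {1/3 < Re y²}`, `B = {Re y² < 2/3}`, `a = 0` iff `0 < Re y`, `b = j` iff
`√3 |Im (- ω^(-j) x)| < Re (- ω^(-j) x)` (`(-x)³ = 1 - y²` has real part `> 1/3` on `B`, so exactly one `j`), and `S_CA`,
`S_CB`, `S_CAB`. -/
def S_F1 : Prop := ∀ g : C(↥{e : ℂ × (ℂ × ℂ) | e.2.2 ^ 2 - e.2.1 ^ 3 = 1}, ↥{e : ℂ × (ℂ × ℂ) | e.2.2 ^ 2 - e.2.1 ^ 3 = 1}),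
  (∀ e, (g e : ℂ × (ℂ × ℂ)) = gU e) → KillRed g

/-- KU: `S_F1` transported by the homeomorphism `(v, x, y) ↦ (v, c² x, c³ y)`, `c^6 = t`, which commutes with `gU`, and
`S_CTR` for `E = ℂ × (ℂ × ℂ)`. -/
def S_KU : Prop := ∀ t : ℂ, t ≠ 0 → Kill 1 (toC gU) {e : ℂ × (ℂ × ℂ) | e.2.2 ^ 2 - e.2.1 ^ 3 = t}

/-- ZC: a free action of `ℤ` with a function `r`, `r (g e) = r e + 1`, is properly discontinuous:
`{e : |r e - r e₀| < 1/4}` is disjoint from its translates; so an open continuous surjection whose fibres are the orbits is a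
covering map. -/
def S_ZC : Prop := ∀ (E X : Type) [TopologicalSpace E] [TopologicalSpace X] (p : C(E, X)) (g : E ≃ₜ E) (r : C(E, ℝ)),
  (∀ e, r (g e) = r e + 1) → IsOpenMap p → Function.Surjective p → (∀ e, p (g e) = p e) →
  (∀ e e', p e = p e' → ∃ k : ℤ, (g ^ k) e = e') → ZCov p g

/-- PU: from `S_ZC` with `r = Im v / (2 π)` (`Complex.exp` is open, `Complex.exp_eq_exp_iff_exists_int`). -/
def S_PU : Prop := ZCov pU hU

/-- KE: from `S_KU`, `S_PU`, `S_COVH` (`pU (gU e) = gA (pU e)`; `gA` preserves `y² - x³`). -/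
def S_KE : Prop := ∀ t : ℂ, t ≠ 0 → Kill 2 (toC gA) {e : Cs × (ℂ × ℂ) | e.2.2 ^ 2 - e.2.1 ^ 3 = t}

/-- KZ: both sides retract to `x = y = 0` by `(x, y) ↦ (s² x, s³ y)` (`HE_of_homotopyEquiv`). -/
def S_KZ : Prop := HE (sub {e : Cs × (ℂ × ℂ) | e.2.2 ^ 2 - e.2.1 ^ 3 = 0})

/-- KI: homotopy inverse `(z, t', w) ↦ (z, t, 0)`; homotopies: first `w → s w`, then `t' → t` linearly (with `w = 0`). -/
def S_KI : Prop := ∀ t : ℂ, HE (sub {e : Cs × Vi | e.2.1.1 = t})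

/-- KIP: homotopy inverse `(z, t', w) ↦ (z, t, w / (1 + c |w|))` with `c > 0`, `|t| < c^6 / 2`; homotopies `w / (1 + c s |w|)`,
then `t' → t` linearly (`|t'' w₁^6| ≤ max (|t'|, |t|) |w₁|^6 < 1/2`). -/
def S_KIP : Prop := ∀ t : ℂ, HE (sub {e : {e : Cs × Vi // e.2.1.2 ≠ 0} | e.1.2.1.1 = t})

/-- MVU: relative Mayer-Vietoris (five lemma). With `S_REL`: `HE` for `A ∩ U → U`, `A ∩ V → V`, `A ∩ U ∩ V → U ∩ V` implies `HE`
for `A → X` by `mv_zero`, `mv_split`, `mv_inj`, `mv_conn` for `X` and for `A`. Or directly: a relative cycle `z` is equivalent to a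
small one (`Sc.rho`) `u + v`, `∂ u + ∂ v = a_U + a_V` in `A`, `∂ u - a_U = - (∂ v - a_V) = d` lies in `U ∩ V` and is a relative
cycle, `d = ∂ w + a'`, and `u - w`, `v + w` are relative cycles in `U`, `V`. -/
def S_MVU : Prop := ∀ (X : Type) [TopologicalSpace X] (U V A : Set X), IsOpen U → IsOpen V → (∀ x, x ∈ U ∨ x ∈ V) →
  Kill 0 (ContinuousMap.id U) (Subtype.val ⁻¹' A) → Kill 0 (ContinuousMap.id V) (Subtype.val ⁻¹' A) →
  Kill 0 (ContinuousMap.id ↥(U ∩ V)) (Subtype.val ⁻¹' A) → Kill 0 (ContinuousMap.id X) A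

/-- FB: the cover `{univ}` (`HE_iff_bijective`, `HE.of_comp_left` etc.). -/
def S_FB : Prop := ∀ (X Y : Type) [TopologicalSpace X] [TopologicalSpace Y] (f : X → Y),
  (∀ y, HE (sub (f ⁻¹' {y}))) → IsZHomologyFiberBundle f

/-! ### Theta functions and the embedding of the elliptic curve -/

/-- THETA: `θ(z) = (1 - z) ∏_(n ≥ 1) (1 - z/2^n) (1 - 1/(2^n z))`. -/
def S_THETA : Prop := ∃ θ : ℂ → ℂ, DifferentiableOn ℂ θ {0}ᶜ ∧ (∀ z, z ≠ 0 → θ (z / 2) = -z⁻¹ * θ z) ∧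
  (∀ z, z ≠ 0 → (θ z = 0 ↔ ∃ k : ℤ, z = 2 ^ k)) ∧ deriv θ 1 ≠ 0

/-- FIN: `a_n(s) = (2πi)⁻¹ ∮ s(z) z^(-n-1) dz` does not depend on the radius (Cauchy on an annulus), so the functional equation
gives `a_n = 2^n c a_(n+3)`, and `a_0 = a_1 = a_2 = 0` implies (for `c ≠ 0`; `c = 0` is trivial) that all Fourier coefficients
of `s` on the unit circle are `0`, so `s = 0` there, and `s = 0` by the identity theorem. So `s ↦ (a_0, a_1, a_2)` is injective. -/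
def S_FIN : Prop := ∀ c : ℂ, Module.Finite ℂ (VV c)

/-- SEP: `s(z) = θ(z/a) θ(z/b) θ(z/d)`, `-a b d = c` (then `s ∈ VV c` after setting `s 0 = 0`): (1) avoid the zeros; (2) `a = z₁` and
`b` outside of a countable set; (3) `a = z₁`, the other two factors nonzero at `z₁`, `θ'(1) ≠ 0`. -/
def S_SEP : Prop := ∀ c : ℂ, c ≠ 0 → (∀ z, z ≠ 0 → ∃ s ∈ VV c, s z ≠ 0) ∧
  (∀ z z', z ≠ 0 → z' ≠ 0 → (¬ ∃ k : ℤ, z' = 2 ^ k * z) → ∃ s ∈ VV c, s z ≠ 0 ∧ s z' = 0) ∧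
  ∀ z, z ≠ 0 → ∃ s ∈ VV c, s z = 0 ∧ deriv s z ≠ 0

/-- PHI: `φ i = ` a basis of `VV (cc i)` (padded by zeros to a common number `n` of functions). -/
def S_PHI : Prop := ∃ (n : ℕ) (φ : Fin 3 → ℂ → Fin n → ℂ), Emb φ

/-! ### The total space -/

/-- PT2: projective space is Hausdorff (quotient topology; e.g. the continuous functions
`|x_i conj(y_j) ...|`, or `[x] ↦ x x* / |x|²` into matrices is continuous and injective). -/
def S_PT2 : Prop := ∀ (ι : Type) [Fintype ι], T2Space (ℙ ℂ (ι → ℂ))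

/-- PCO: continuity of `mk`. -/
def S_PCO : Prop := ∀ (ι : Type) [Fintype ι] (T : Type) [TopologicalSpace T] (f : T → ι → ℂ) (hf : ∀ t, f t ≠ 0),
  Continuous f → Continuous fun t => Projectivization.mk ℂ (f t) (hf t)

/-- INJ: `Ph φ (z/2) (aa * X) = z⁻³ Ph φ z X` (`Emb.mult`, `cc i * aa i = 1`); by `Emb.sep` for an `i` with `X i ≠ 0` one has
`z' = z / 2^k`, and then `X' i φ i z' = l aa_i^k X i φ i z'` for all `i`. -/
def S_INJ : Prop := ∀ (n : ℕ) (φ : Fin 3 → ℂ → Fin n → ℂ), Emb φ → ∀ (z z' : ℂ) (X X' : Fin 3 → ℂ), z ≠ 0 → z' ≠ 0 →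
  X ≠ 0 → X' ≠ 0 → ((∃ l : ℂ, l ≠ 0 ∧ Ph φ z' X' = l • Ph φ z X) ↔
    ∃ (k : ℤ) (l : ℂ), l ≠ 0 ∧ z' = z / 2 ^ k ∧ ∀ i, X' i = l * (aa i ^ k * X i))

/-- QO: the quotient map is open. For a closed set `C` of parameters, stable under `(z, X) ↦ (z / 2, aa X)` and scaling of `X`,
the image is closed: by stability it is the image of `C ∩ {1/2 ≤ |z| ≤ 1, |X| = 1}`, and
`(t, (z, X)) ↦ (t, [Ph φ z X])` is a closed map on `ℂ × compact` (`Continuous.isProperMap`-like, `S_PT2`, `S_PCO`). The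
complement of the saturation of an open set is such a `C` (`S_INJ`). -/
def S_QO : Prop := ∀ (n : ℕ) (φ : Fin 3 → ℂ → Fin n → ℂ) (_ : Emb φ)
  (Θ : {e : ℂ × ℂ × (Fin 3 → ℂ) // e.1 ≠ 0 ∧ e.2.2 ≠ 0 ∧ We e.2.1 e.2.2} → XX φ),
  (∀ e, (Θ e : ℂ × ℙ ℂ (Fin 3 × Fin n → ℂ)).1 = e.1.2.1 ∧ ∃ h, (Θ e : ℂ × ℙ ℂ (Fin 3 × Fin n → ℂ)).2 =
    Projectivization.mk ℂ (Ph φ e.1.1 e.1.2.2) h) → Continuous Θ ∧ IsOpenMap Θ

/-- CL: the image of `{(t, z, X) : 1/2 ≤ |z| ≤ 1, |X| = 1, We t X}` under a closed map, see `S_QO`. -/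
def S_CL : Prop := ∀ (n : ℕ) (φ : Fin 3 → ℂ → Fin n → ℂ), Emb φ → IsClosed (XX φ)

/-- OA: from `S_QO`: `ptA h O` is the image of `{(z, t, X) : X 0 ≠ 0, (z, X 1 / X 0, X 2 / X 0) ∈ O}`. -/
def S_OA : Prop := ∀ (n : ℕ) (φ : Fin 3 → ℂ → Fin n → ℂ) (h : Emb φ), Continuous (ptA h) ∧ IsOpenMap (ptA h)

/-- OI: from `S_QO`: `ptI h O` is the image of the parameters `(z, t, X)` with `X 2 ≠ 0` such that, for the unique small `w`
with `[X] = [w³ : w : √(1 + t w^6)]`, `(z, t, w) ∈ O`. (Locally: `w = (X 1 / X 2) c`, `c² = 1 + t w^6`; with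
`b = X 1 / X 2`, `a = X 0 / X 2`: `a = b³ + t a³`. If `|t w^6| < 1/2` then `w = b c`, `w³ = a c`, so `w^2 = a / b` if `b ≠ 0`, and
`c² = 1 / (1 - t a^2)`, because `t w^6 = t a² c²`. So `c = (1 - t a²)^(-1/2)`, `w = b c`, a continuous function of `(t, X)` on the open
set `{X 2 ≠ 0, |t a² / (1 - t a²)| < 1/2}`, `1 - t a² = c^(-2)` has positive real part.) -/
def S_OI : Prop := ∀ (n : ℕ) (φ : Fin 3 → ℂ → Fin n → ℂ) (h : Emb φ), Continuous (ptI h) ∧ IsOpenMap (ptI h)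

/-- FA: from `S_INJ`. -/
def S_FA : Prop := ∀ (n : ℕ) (φ : Fin 3 → ℂ → Fin n → ℂ) (h : Emb φ), (∀ e, ptA h (gA e) = ptA h e) ∧
  ∀ e e', ptA h e = ptA h e' → ∃ k : ℤ, (gA ^ k) e = e'

/-- FI: from `S_INJ`: `vecI t (ζ⁻¹ w) = - aa * vecI t w`. If `vecI t w' = l aa^k vecI t w` and `w ≠ 0`: `l³ = l`, so `l² = 1`,
`w'^6 = w^6`, the square roots agree (real part `> 0`), so `l = (-1)^k` and `w' = (- ω)^k w = ζ^(-k) w`. -/
def S_FI : Prop := ∀ (n : ℕ) (φ : Fin 3 → ℂ → Fin n → ℂ) (h : Emb φ), (∀ e, ptI h (gI e) = ptI h e) ∧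
  ∀ e e', ptI h e = ptI h e' → ∃ k : ℤ, (gI ^ k) e = e'

/-- RG: `X 0 ≠ 0` gives a point of the first kind; `X 0 = 0` gives `X 1 = 0` and `w = 0`. `[w³ : w : c]` with `w ≠ 0` is
`[1 : w⁻² : c w⁻³]`. -/
def S_RG : Prop := ∀ (n : ℕ) (φ : Fin 3 → ℂ → Fin n → ℂ) (h : Emb φ),
  (∀ p : XX φ, p ∈ Set.range (ptA h) ∨ p ∈ Set.range (ptI h)) ∧
  ∀ e : Cs × Vi, ptI h e ∈ Set.range (ptA h) ↔ e.2.1.2 ≠ 0

/-- ZA: from `S_ZC` with `r = - log |z| / log 2`, `S_OA`, `S_FA`. -/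
def S_ZA : Prop := ∀ (n : ℕ) (φ : Fin 3 → ℂ → Fin n → ℂ) (h : Emb φ),
  ∃ p : C(Cs × (ℂ × ℂ), ↥(Set.range (ptA h))), (∀ e, (p e : XX φ) = ptA h e) ∧ ZCov p gA

/-- ZI: from `S_ZC`, `S_OI`, `S_FI`. -/
def S_ZI : Prop := ∀ (n : ℕ) (φ : Fin 3 → ℂ → Fin n → ℂ) (h : Emb φ),
  ∃ p : C(Cs × Vi, ↥(Set.range (ptI h))), (∀ e, (p e : XX φ) = ptI h e) ∧ ZCov p gI

/-- ZP: from `S_ZC`, `S_OI`, `S_FI`, `S_RG` (restriction of `ptI` to `w ≠ 0`). -/
def S_ZP : Prop := ∀ (n : ℕ) (φ : Fin 3 → ℂ → Fin n → ℂ) (h : Emb φ),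
  ∃ (p : C({e : Cs × Vi // e.2.1.2 ≠ 0}, ↥(Set.range (ptA h) ∩ Set.range (ptI h))))
    (g : {e : Cs × Vi // e.2.1.2 ≠ 0} ≃ₜ {e : Cs × Vi // e.2.1.2 ≠ 0}), (∀ e, (p e : XX φ) = ptI h e.1) ∧ ZCov p g

/-- HT: assembly. `U = range (ptA h)`, `V = range (ptI h)` (open: `S_OA`, `S_OI`), `A = {τ = t}`; `S_MVU`; on `U`: `S_ZA`, `S_COV`, and
`S_KE` (`t ≠ 0`, `k = 2`) or `S_KZ`, `S_REL` (`t = 0`, `k = 0`); on `V`: `S_ZI`, `S_COV`, `S_KI`, `S_REL`; on `U ∩ V`: `S_ZP`, `S_COV`,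
`S_KIP`, `S_REL`. -/
def S_HT : Prop := ∀ (n : ℕ) (φ : Fin 3 → ℂ → Fin n → ℂ), Emb φ → ∀ t : ℂ, HE (sub {p : XX φ | p.1.1 = t})

/-- CONN: by `S_HT` and path connectedness of `XX φ` (images of `Cs × (ℂ × ℂ)` and of `Cs × Vi` which meet): for `x, y` in the fibre
`x - y` is a boundary in `XX φ`, so it is a boundary in the fibre, so `x`, `y` are in one path component (sum of the
coefficients over the points of a path component). The fibre is not empty. -/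
def S_CONN : Prop := ∀ (n : ℕ) (φ : Fin 3 → ℂ → Fin n → ℂ), Emb φ → ∀ t : ℂ, IsPathConnected {p : XX φ | p.1.1 = t}

/-! ### Complex structure -/

/-- LPA: parametrisation `V = {v : |v 0 - z| < |z| / 4}`, `a v = v 2 ^ 2 - v 1 ^ 3`, `φ v = Ph φ (v 0) ![1, v 1, v 2]`: injective on `V`
(`S_INJ`, the quotient of two such `v 0` is not `2^k`, `k ≠ 0`), open by `S_OA`. Immersion: component `i = 0` gives
`h 0 φ₀' = c φ₀`, so `h 0 = 0` (`tan`), `c = 0` (`ne`), then `h 1 = h 2 = 0`. -/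
def S_LPA : Prop := ∀ (n : ℕ) (φ : Fin 3 → ℂ → Fin n → ℂ) (h : Emb φ) (e : Cs × (ℂ × ℂ)),
  ∃ (P : LocalParam 3 (XX φ)) (v : Fin 3 → ℂ) (hv : v ∈ P.V), P.pt v hv = (ptA h e).1 ∧
    ∀ k : Fin 3 → ℂ, fderiv ℂ P.a v k = 2 * e.2.2 * k 2 - 3 * e.2.1 ^ 2 * k 1

/-- LPI: `V = {v : |v 0 - z| < |z| / 4, |v 1 * v 2 ^ 6| < 1/2}`, `a v = v 1`, `φ v = Ph φ (v 0) (vecI (v 1) (v 2))`. Immersion: `h 1 = 0`;
`i = 2`: `h 0 = 0` by `tan` (the third coordinate of `vecI` is not 0); `i = 1`: `h 2 = c w`; `i = 0`: `3 w² h 2 = c w³`; so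
`h 2 = 0`. -/
def S_LPI : Prop := ∀ (n : ℕ) (φ : Fin 3 → ℂ → Fin n → ℂ) (h : Emb φ) (e : Cs × Vi),
  ∃ (P : LocalParam 3 (XX φ)) (v : Fin 3 → ℂ) (hv : v ∈ P.V), P.pt v hv = (ptI h e).1 ∧
    ∃ k : Fin 3 → ℂ, fderiv ℂ P.a v k ≠ 0

/-- IND: two parametrisations of the same point differ by a holomorphic change of coordinates. In the affine chart
`ψ = (a, φ_j / φ_i)` (`φ_i v ≠ 0`) the parametrisation `P` has injective differential; let `L` be a linear map such that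
`L ∘ ψ_P'` has bijective differential at `v'`; by the inverse function theorem `T = (L ψ_P')⁻¹ (L ψ_P)` is holomorphic near `v`
and `P (u) = P' (T u)` (both are open embeddings in `X`), so `P.a = P'.a ∘ T` and `D P.a = D P'.a ∘ D T`. -/
def S_IND : Prop := ∀ (ι : Type) [Fintype ι] (d : ℕ) (X : Set (ℂ × ℙ ℂ (ι → ℂ))) (P P' : LocalParam d X)
  (v v' : Fin d → ℂ) (hv : v ∈ P.V) (hv' : v' ∈ P'.V), P.pt v hv = P'.pt v' hv' →
  (∃ k, fderiv ℂ P.a v k ≠ 0) → ∃ k, fderiv ℂ P'.a v' k ≠ 0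

/-- FINAL -/
def S_FINAL : Prop := ∃ (n : ℕ) (X : Set (ℂ × ℙ ℂ (Fin 3 × Fin n → ℂ))), IsClosedSubmanifold 3 X ∧
  (∀ t : ℂ, IsPathConnected {p : X | p.1.1 = t}) ∧ (∀ p ∈ X, p.1 ≠ 0 → ProjSubmersiveAt 3 X p) ∧
  IsZHomologyFiberBundle (fun p : X => p.1.1) ∧
  ∃ p ∈ X, p.1 = 0 ∧ ∀ (P : LocalParam 3 X) (v : Fin 3 → ℂ) (hv : v ∈ P.V), P.pt v hv = p →
    ∀ k : Fin 3 → ℂ, fderiv ℂ P.a v k = 0

end Pool.Agent.Q293.HF
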